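import Mathlib

set_option autoImplicit false

open Real MeasureTheory intervalIntegral

namespace RelEqN

/-! ### Alternating Taylor bounds for `cos` and `sin` -/

/-- partial Taylor sums of `cos` (terms `0..n-1`). -/
noncomputable def cT (n : ℕ) (t : ℝ) : ℝ := ∑ i ∈ Finset.range n, (-1) ^ i * t ^ (2 * i) / (2 * i).factorial
/-- partial Taylor sums of `sin` (terms `0..n-1`). -/
noncomputable def sT (n : ℕ) (t : ℝ) : ℝ :=
  ∑ i ∈ Finset.range n, (-1) ^ i * t ^ (2 * i + 1) / (2 * i + 1).factorial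

lemma hasDerivAt_sT (n : ℕ) (t : ℝ) : HasDerivAt (sT n) (cT n t) t := by
  unfold sT cT
  have : ∀ i ∈ Finset.range n, HasDerivAt (fun t : ℝ => (-1 : ℝ) ^ i * t ^ (2 * i + 1) / (2 * i + 1).factorial)
      ((-1) ^ i * t ^ (2 * i) / (2 * i).factorial) t := by
    intro i _
    have h := ((hasDerivAt_pow (2 * i + 1) t).const_mul ((-1 : ℝ) ^ i)).div_const ((2 * i + 1).factorial : ℝ)
    refine h.congr_deriv ?_
    rw [Nat.factorial_succ]
    have h1 : ((2 * i).factorial : ℝ) ≠ 0 := by positivity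
    have h2 : ((2 * i + 1 : ℕ) : ℝ) ≠ 0 := by positivity
    push_cast at h2 ⊢
    field_simp
    try simp
  have h := HasDerivAt.fun_sum this
  exact h

lemma hasDerivAt_cT (n : ℕ) (t : ℝ) : HasDerivAt (cT (n + 1)) (-(sT n t)) t := by
  unfold sT cT
  have h0 : (fun t : ℝ => ∑ i ∈ Finset.range (n + 1), (-1 : ℝ) ^ i * t ^ (2 * i) / (2 * i).factorial)
      = fun t => (∑ i ∈ Finset.range n, (-1 : ℝ) ^ (i + 1) * t ^ (2 * i + 2) / (2 * i + 2).factorial) + 1 := by
    funext t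
    rw [Finset.sum_range_succ']
    simp [mul_add]
  rw [h0]
  have : ∀ i ∈ Finset.range n, HasDerivAt (fun t : ℝ => (-1 : ℝ) ^ (i + 1) * t ^ (2 * i + 2) / (2 * i + 2).factorial)
      (-((-1) ^ i * t ^ (2 * i + 1) / (2 * i + 1).factorial)) t := by
    intro i _
    have h := ((hasDerivAt_pow (2 * i + 2) t).const_mul ((-1 : ℝ) ^ (i + 1))).div_const ((2 * i + 2).factorial : ℝ)
    refine h.congr_deriv ?_
    rw [Nat.factorial_succ (2 * i + 1)]
    have h1 : ((2 * i + 1).factorial : ℝ) ≠ 0 := by positivity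
    have h2 : ((2 * i + 1 + 1 : ℕ) : ℝ) ≠ 0 := by positivity
    push_cast at h2 ⊢
    rw [pow_succ]
    have h3 : (2 * (i:ℝ) + 2) ≠ 0 := by positivity
    have h4 : (2 * (i:ℝ) + 1 + 1) ≠ 0 := by positivity
    field_simp
    ring
  have h := (HasDerivAt.fun_sum this).add_const 1
  rw [Finset.sum_neg_distrib] at h
  exact h

lemma nonneg_of_deriv_nonneg {f f' : ℝ → ℝ} (hf : ∀ t, HasDerivAt f (f' t) t) (h0 : f 0 = 0)
    (h : ∀ t, 0 ≤ t → 0 ≤ f' t) (t : ℝ) (ht : 0 ≤ t) : 0 ≤ f t := by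
  have hm : MonotoneOn f (Set.Ici 0) := by
    apply monotoneOn_of_deriv_nonneg (convex_Ici 0)
    · exact (continuous_iff_continuousAt.2 fun t => (hf t).continuousAt).continuousOn
    · exact fun t _ => (hf t).differentiableAt.differentiableWithinAt
    · intro x hx
      rw [interior_Ici] at hx
      rw [(hf x).deriv]
      exact h x (le_of_lt hx)
  have := hm (Set.mem_Ici.2 le_rfl) (Set.mem_Ici.2 ht) ht
  rwa [h0] at this

/-- The sign-alternating bounds. -/
lemma alt_bounds (n : ℕ) : (∀ t : ℝ, 0 ≤ t → 0 ≤ (-1 : ℝ) ^ (n + 1) * (cos t - cT (n + 1) t)) ∧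
    (∀ t : ℝ, 0 ≤ t → 0 ≤ (-1 : ℝ) ^ (n + 1) * (sin t - sT (n + 1) t)) := by
  have step1 : ∀ n : ℕ, (∀ t : ℝ, 0 ≤ t → 0 ≤ (-1 : ℝ) ^ (n + 1) * (cos t - cT (n + 1) t)) →
      (∀ t : ℝ, 0 ≤ t → 0 ≤ (-1 : ℝ) ^ (n + 1) * (sin t - sT (n + 1) t)) := by
    intro n h
    apply nonneg_of_deriv_nonneg (f' := fun t => (-1 : ℝ) ^ (n + 1) * (cos t - cT (n + 1) t))
    · intro t
      exact ((hasDerivAt_sin t).sub (hasDerivAt_sT (n + 1) t)).const_mul _
    · simp [sT]
    · exact h
  have step2 : ∀ n : ℕ, (∀ t : ℝ, 0 ≤ t → 0 ≤ (-1 : ℝ) ^ (n + 1) * (sin t - sT (n + 1) t)) →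
      (∀ t : ℝ, 0 ≤ t → 0 ≤ (-1 : ℝ) ^ (n + 1 + 1) * (cos t - cT (n + 1 + 1) t)) := by
    intro n h
    apply nonneg_of_deriv_nonneg (f' := fun t => (-1 : ℝ) ^ (n + 1) * (sin t - sT (n + 1) t))
    · intro t
      refine (((hasDerivAt_cos t).sub (hasDerivAt_cT (n + 1) t)).const_mul ((-1 : ℝ) ^ (n + 1 + 1))).congr_deriv ?_
      ring
    · simp only [cT, cos_zero]
      rw [Finset.sum_range_succ']
      simp
    · exact h
  induction n with
  | zero =>
    have h0 : ∀ t : ℝ, 0 ≤ t → 0 ≤ (-1 : ℝ) ^ (0 + 1) * (cos t - cT (0 + 1) t) := by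
      intro t _
      simp [cT]
      exact cos_le_one t
    exact ⟨h0, step1 0 h0⟩
  | succ n ih =>
    have h1 := step2 n ih.2
    exact ⟨h1, step1 (n + 1) h1⟩

lemma cT_even (n : ℕ) (t : ℝ) : cT n (-t) = cT n t := by
  unfold cT
  refine Finset.sum_congr rfl fun i _ => ?_
  rw [pow_mul (-t) 2 i, neg_sq, ← pow_mul]

/-- For an odd number of terms the Taylor sum is an upper bound of the cosine. -/
lemma cos_le_cT (k : ℕ) (t : ℝ) : cos t ≤ cT (2 * k + 1) t := by
  wlog ht : 0 ≤ t with H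
  · have := H k (-t) (by linarith)
    rwa [cos_neg, cT_even] at this
  have := (alt_bounds (2 * k)).1 t ht
  rw [pow_succ, pow_mul] at this
  norm_num at this
  linarith

/-! ### The Bessel function `J₀` -/

/-- `J₀(z) = (1/2π) ∫₀^{2π} cos(z cos θ) dθ`. -/
noncomputable def J (z : ℝ) : ℝ := (2 * π)⁻¹ * ∫ θ in (0 : ℝ)..(2 * π), cos (z * cos θ)

/-- normalized even moments of the cosine -/
noncomputable def mom (i : ℕ) : ℝ := (2 * π)⁻¹ * ∫ θ in (0 : ℝ)..(2 * π), cos θ ^ (2 * i)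

lemma mom_zero : mom 0 = 1 := by
  unfold mom
  simp
  field_simp

lemma mom_succ (i : ℕ) : mom (i + 1) = (2 * i + 1) / (2 * i + 2) * mom i := by
  unfold mom
  rw [show 2 * (i + 1) = 2 * i + 2 by ring, integral_cos_pow]
  simp
  ring

lemma mom_eq (i : ℕ) : mom i = (2 * i).factorial / (4 ^ i * (i.factorial : ℝ) ^ 2) := by
  induction i with
  | zero => simp [mom_zero]
  | succ i ih =>
    rw [mom_succ, ih, show 2 * (i + 1) = 2 * i + 1 + 1 by ring, Nat.factorial_succ (2 * i + 1),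
      Nat.factorial_succ (2 * i), Nat.factorial_succ i]
    push_cast
    have h1 : ((i.factorial : ℕ) : ℝ) ≠ 0 := by positivity
    field_simp
    ring

lemma cont_aux (z : ℝ) : Continuous fun θ : ℝ => cos (z * cos θ) := by fun_prop

/-- Partial sums of the power series of `J₀` in terms of `y = z²/4`. -/
noncomputable def jT (n : ℕ) (y : ℝ) : ℝ := ∑ i ∈ Finset.range n, (-1) ^ i * y ^ i / (i.factorial : ℝ) ^ 2

lemma J_le_jT (k : ℕ) (z : ℝ) : J z ≤ jT (2 * k + 1) (z ^ 2 / 4) := by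
  have h1 : ∫ θ in (0 : ℝ)..(2 * π), cos (z * cos θ) ≤ ∫ θ in (0 : ℝ)..(2 * π), cT (2 * k + 1) (z * cos θ) := by
    apply intervalIntegral.integral_mono_on (by positivity)
    · exact (cont_aux z).intervalIntegrable _ _
    · apply Continuous.intervalIntegrable
      unfold cT
      fun_prop
    · intro θ _
      exact cos_le_cT k _
  have h2 : ∫ θ in (0 : ℝ)..(2 * π), cT (2 * k + 1) (z * cos θ)
      = ∑ i ∈ Finset.range (2 * k + 1), (-1) ^ i * z ^ (2 * i) / (2 * i).factorial *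
        ∫ θ in (0 : ℝ)..(2 * π), cos θ ^ (2 * i) := by
    unfold cT
    rw [intervalIntegral.integral_finsetSum]
    · refine Finset.sum_congr rfl fun i _ => ?_
      rw [← intervalIntegral.integral_const_mul]
      congr 1
      funext θ
      rw [mul_pow]
      ring
    · intro i _
      apply Continuous.intervalIntegrable
      fun_prop
  unfold J jT
  have h3 : (2 * π)⁻¹ * ∫ θ in (0 : ℝ)..(2 * π), cT (2 * k + 1) (z * cos θ)
      = ∑ i ∈ Finset.range (2 * k + 1), (-1) ^ i * (z ^ 2 / 4) ^ i / (i.factorial : ℝ) ^ 2 := by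
    rw [h2, Finset.mul_sum]
    refine Finset.sum_congr rfl fun i _ => ?_
    have h4 := mom_eq i
    unfold mom at h4
    rw [show (2 * π)⁻¹ * ((-1) ^ i * z ^ (2 * i) / (2 * i).factorial * ∫ θ in (0 : ℝ)..(2 * π), cos θ ^ (2 * i))
      = ((-1) ^ i * z ^ (2 * i) / (2 * i).factorial) * ((2 * π)⁻¹ * ∫ θ in (0 : ℝ)..(2 * π), cos θ ^ (2 * i)) by ring,
      h4, div_pow, ← pow_mul z 2 i]
    have h1 : ((i.factorial : ℕ) : ℝ) ≠ 0 := by positivity
    have h2 : (((2 * i).factorial : ℕ) : ℝ) ≠ 0 := by positivity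
    field_simp
  rw [← h3]
  exact mul_le_mul_of_nonneg_left h1 (by positivity)

lemma J_zero : J 0 = 1 := by
  unfold J
  simp
  field_simp

lemma J_le_one (z : ℝ) : J z ≤ 1 := by
  have := J_le_jT 0 z
  simpa [jT] using this

/-- `J₀` is `5/7`-Lipschitz. -/
lemma J_lip (x y : ℝ) : J x ≤ J y + 5 / 7 * |x - y| := by
  have hpt : ∀ θ : ℝ, cos (x * cos θ) ≤ cos (y * cos θ) + |x - y| * ((cos θ ^ 2 + 25 / 49) * (7 / 10)) := by
    intro θ
    have h1 : |cos (x * cos θ) - cos (y * cos θ)| ≤ |x * cos θ - y * cos θ| := by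
      exact Real.abs_cos_sub_cos_le (x * cos θ) (y * cos θ)
    have h2 : |x * cos θ - y * cos θ| = |x - y| * |cos θ| := by
      rw [← sub_mul, abs_mul]
    have h3 : |cos θ| ≤ (cos θ ^ 2 + 25 / 49) * (7 / 10) := by
      have : cos θ ^ 2 = |cos θ| ^ 2 := (sq_abs _).symm
      rw [this]
      nlinarith [sq_nonneg (|cos θ| - 5 / 7)]
    have h4 := mul_le_mul_of_nonneg_left h3 (abs_nonneg (x - y))
    have h5 := le_abs_self (cos (x * cos θ) - cos (y * cos θ))
    linarith
  have h1 : ∫ θ in (0 : ℝ)..(2 * π), cos (x * cos θ) ≤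
      ∫ θ in (0 : ℝ)..(2 * π), (cos (y * cos θ) + |x - y| * ((cos θ ^ 2 + 25 / 49) * (7 / 10))) := by
    apply intervalIntegral.integral_mono_on (by positivity)
    · exact (cont_aux x).intervalIntegrable _ _
    · apply Continuous.intervalIntegrable
      fun_prop
    · intro θ _
      exact hpt θ
  have h2 : ∫ θ in (0 : ℝ)..(2 * π), (cos (y * cos θ) + |x - y| * ((cos θ ^ 2 + 25 / 49) * (7 / 10)))
      = (∫ θ in (0 : ℝ)..(2 * π), cos (y * cos θ)) + |x - y| * ((∫ θ in (0 : ℝ)..(2 * π), cos θ ^ 2) + 2 * π * (25 / 49)) * (7 / 10) := by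
    rw [intervalIntegral.integral_add, intervalIntegral.integral_const_mul, intervalIntegral.integral_mul_const,
      intervalIntegral.integral_add]
    · simp
      ring
    · apply Continuous.intervalIntegrable
      fun_prop
    · apply Continuous.intervalIntegrable
      fun_prop
    · exact (cont_aux y).intervalIntegrable _ _
    · apply Continuous.intervalIntegrable
      fun_prop
  have h3 : ∫ θ in (0 : ℝ)..(2 * π), cos θ ^ 2 = π := by
    have h := mom_succ 0
    rw [mom_zero] at h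
    unfold mom at h
    have hpi : π ≠ 0 := Real.pi_ne_zero
    rw [show 2 * (0 + 1) = 2 by norm_num] at h
    have h5 : (2 * π) * ((2 * π)⁻¹ * ∫ θ in (0 : ℝ)..(2 * π), cos θ ^ 2) = (2 * π) * (1 / 2) := by
      rw [h]; norm_num
    rw [← mul_assoc, mul_inv_cancel₀ (by positivity), one_mul] at h5
    rw [h5]; ring
  unfold J
  rw [h3] at h2
  rw [h2] at h1
  have hpi := Real.pi_pos
  have h4 := mul_le_mul_of_nonneg_left h1 (show (0 : ℝ) ≤ (2 * π)⁻¹ by positivity)
  refine h4.trans ?_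
  rw [mul_add]
  have : (2 * π)⁻¹ * (|x - y| * (π + 2 * π * (25 / 49)) * (7 / 10)) = (99 / 98) * (7 / 10) * |x - y| := by
    field_simp
    ring
  rw [this]
  have h6 := abs_nonneg (x - y)
  linarith

/-- Positive definiteness of `J₀(k |x - y|)` on the plane. -/
lemma J_norm (k : ℝ) (x : ℂ) :
    J (k * ‖x‖) = (2 * π)⁻¹ * ∫ θ in (0 : ℝ)..(2 * π), cos (k * (x.re * cos θ + x.im * sin θ)) := by
  unfold J
  congr 1
  have hx : ∀ θ : ℝ, x.re * cos θ + x.im * sin θ = ‖x‖ * cos (θ - x.arg) := by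
    intro θ
    rw [cos_sub]
    have h1 := Complex.norm_mul_cos_arg x
    have h2 := Complex.norm_mul_sin_arg x
    rw [← h1, ← h2]
    simp only [Complex.norm_mul_cos_arg, Complex.norm_mul_sin_arg]
    have h3 : ‖x‖ * (cos θ * cos x.arg + sin θ * sin x.arg) = (‖x‖ * cos x.arg) * cos θ + (‖x‖ * sin x.arg) * sin θ := by ring
    rw [h3, h1, h2]
  simp_rw [hx]
  have hper : Function.Periodic (fun θ : ℝ => cos (k * (‖x‖ * cos θ))) (2 * π) := by
    intro θ
    simp
  have h2 : ∫ θ in (0 : ℝ)..(2 * π), cos (k * (‖x‖ * cos (θ - x.arg)))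
      = ∫ θ in (0 - x.arg)..(2 * π - x.arg), cos (k * (‖x‖ * cos θ)) := by
    rw [intervalIntegral.integral_comp_sub_right (fun θ => cos (k * (‖x‖ * cos θ))) x.arg]
  rw [h2]
  have h3 := hper.intervalIntegral_add_eq 0 (0 - x.arg)
  rw [show (2 * π - x.arg) = (0 - x.arg) + 2 * π by ring, ← h3]
  simp only [zero_add, mul_assoc]

lemma J_posDef {ι : Type*} (s : Finset ι) (m : ι → ℝ) (q : ι → ℂ) (k : ℝ) :
    0 ≤ ∑ i ∈ s, ∑ j ∈ s, m i * m j * J (k * ‖q i - q j‖) := by
  have h1 : ∀ i ∈ s, ∀ j ∈ s, m i * m j * J (k * ‖q i - q j‖) =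
      (2 * π)⁻¹ * ∫ θ in (0 : ℝ)..(2 * π), m i * m j * cos (k * (((q i - q j).re) * cos θ + (q i - q j).im * sin θ)) := by
    intro i _ j _
    rw [J_norm, intervalIntegral.integral_const_mul]
    ring
  rw [Finset.sum_congr rfl fun i hi => Finset.sum_congr rfl fun j hj => h1 i hi j hj]
  simp_rw [← Finset.mul_sum]
  apply mul_nonneg (by positivity)
  have h2 : ∀ i ∈ s, ∑ j ∈ s, ∫ θ in (0 : ℝ)..(2 * π), m i * m j * cos (k * (((q i - q j).re) * cos θ + (q i - q j).im * sin θ))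
      = ∫ θ in (0 : ℝ)..(2 * π), ∑ j ∈ s, m i * m j * cos (k * (((q i - q j).re) * cos θ + (q i - q j).im * sin θ)) := by
    intro i _
    rw [intervalIntegral.integral_finsetSum]
    intro j _
    apply Continuous.intervalIntegrable
    fun_prop
  rw [Finset.sum_congr rfl h2, ← intervalIntegral.integral_finsetSum]
  · apply intervalIntegral.integral_nonneg (by positivity)
    intro θ _
    have h3 : ∑ i ∈ s, ∑ j ∈ s, m i * m j * cos (k * (((q i - q j).re) * cos θ + (q i - q j).im * sin θ))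
        = (∑ i ∈ s, m i * cos (k * ((q i).re * cos θ + (q i).im * sin θ))) ^ 2
        + (∑ i ∈ s, m i * sin (k * ((q i).re * cos θ + (q i).im * sin θ))) ^ 2 := by
      rw [sq, sq, Finset.sum_mul_sum, Finset.sum_mul_sum, ← Finset.sum_add_distrib]
      refine Finset.sum_congr rfl fun i _ => ?_
      rw [← Finset.sum_add_distrib]
      refine Finset.sum_congr rfl fun j _ => ?_
      have : k * (((q i - q j).re) * cos θ + (q i - q j).im * sin θ)
        = k * ((q i).re * cos θ + (q i).im * sin θ) - k * ((q j).re * cos θ + (q j).im * sin θ) := by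
        simp only [Complex.sub_re, Complex.sub_im]
        ring
      rw [this, cos_sub]
      ring
    rw [h3]
    positivity
  · intro i _
    apply Continuous.intervalIntegrable
    fun_prop

end RelEqN
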