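import Pool.Agent.Lib.MP_b9e19b_mp.Bessel

set_option autoImplicit false

open Real

namespace RelEqN

/-! ### The one-variable certificate -/

/-- Horner evaluation of the truncated `J₀` series (in the variable `y = z²/4`). -/
def hor (y : ℚ) : ℕ → ℚ → ℚ
  | 0, acc => acc
  | (m + 1), acc => hor y m (1 - y * acc / (((m : ℚ) + 1) ^ 2))

/-- the truncated series with `25` terms -/
def horP (y : ℚ) : ℚ := hor y 24 1

/-- rational lower bound for the certificate function on `[a, b]`. -/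
def low (a b : ℚ) : ℚ :=
  2 / b ^ 3 + 319 / 100 * (a ^ 2 - 1 / a) - 23 / 4
   - 25 / 2 * (horP (225 / 256 * (a + b) ^ 2) + 15 / 4 * ((b - a) / 2) * (5 / 7))
   - 24 / 5 * (horP (625 / 256 * (a + b) ^ 2) + 25 / 4 * ((b - a) / 2) * (5 / 7))

/-- the checker on a list of nodes (in units `1/1000`). -/
def chk : List ℕ → Bool
  | a :: b :: l => decide (0 < a ∧ a < b ∧ 0 ≤ low ((a : ℚ) / 1000) ((b : ℚ) / 1000)) && chk (b :: l)
  | _ => true

/-- the nodes -/
def pts : List ℕ :=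
  [400, 465, 502, 526, 543, 556, 566, 574, 581, 587, 592, 596, 600, 603, 606, 609, 612, 614, 616,
   618, 620, 622, 624, 626, 627, 628, 629, 630, 631, 632, 633, 634, 635, 636, 637, 638, 639, 640,
   641, 642, 643, 644, 645, 646, 647, 648, 649, 650, 651, 652, 653, 654, 655, 656, 657, 658, 659,
   660, 661, 662, 663, 664, 665, 666, 667, 668, 669, 670, 671, 672, 673, 674, 675, 676, 677, 678,
   679, 680, 681, 682, 683, 684, 685, 686, 687, 688, 689, 690, 692, 694, 696, 698, 700, 702, 704,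
   706, 708, 710, 712, 715, 718, 721, 724, 727, 730, 734, 738, 742, 746, 751, 756, 761, 766, 772,
   778, 784, 791, 798, 805, 813, 821, 829, 838, 847, 856, 865, 874, 883, 892, 901, 910, 919, 928,
   937, 945, 953, 961, 969, 976, 983, 990, 997, 1003, 1009, 1015, 1021, 1026, 1031, 1036, 1041,
   1046, 1050, 1054, 1058, 1062, 1066, 1070, 1074, 1077, 1080, 1083, 1086, 1089, 1092, 1095,
   1098, 1101, 1104, 1107, 1110, 1112, 1114, 1116, 1118, 1120, 1122, 1124, 1126, 1128, 1130,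
   1132, 1134, 1136, 1138, 1140, 1142, 1144, 1146, 1148, 1150, 1152, 1154, 1156, 1158, 1160,
   1162, 1164, 1166, 1168, 1170, 1172, 1174, 1176, 1178, 1180, 1182, 1184, 1186, 1188, 1190,
   1192, 1194, 1196, 1198, 1200, 1202, 1204, 1206, 1208, 1210, 1212, 1214, 1216, 1218, 1220,
   1222, 1224, 1226, 1228, 1230, 1232, 1234, 1236, 1238, 1240, 1242, 1244, 1246, 1248, 1250,
   1252, 1254, 1256, 1258, 1261, 1264, 1267, 1270, 1273, 1276, 1279, 1282, 1285, 1288, 1291,
   1294, 1298, 1302, 1306, 1310, 1314, 1318, 1322, 1326, 1331, 1336, 1341, 1346, 1351, 1356,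
   1362, 1368, 1374, 1380, 1386, 1392, 1399, 1406, 1413, 1420, 1427, 1434, 1441, 1449, 1457,
   1465, 1473, 1481, 1489, 1497, 1505, 1513, 1521, 1529, 1536, 1543, 1550, 1557, 1564, 1571,
   1577, 1583, 1589, 1595, 1601, 1607, 1612, 1617, 1622, 1627, 1632, 1636, 1640, 1644, 1648,
   1652, 1656, 1660, 1663, 1666, 1669, 1672, 1675, 1678, 1681, 1684, 1687, 1690, 1693, 1695,
   1697, 1699, 1701, 1703, 1705, 1707, 1709, 1711, 1713, 1715, 1717, 1719, 1721, 1723, 1725,
   1727, 1729, 1731, 1733, 1735, 1737, 1739, 1741, 1743, 1745, 1747, 1749, 1751, 1753, 1755,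
   1757, 1759, 1761, 1763, 1765, 1767, 1769, 1771, 1773, 1775, 1777, 1779, 1781, 1783, 1786,
   1789, 1792, 1795, 1798, 1801, 1804, 1808, 1812, 1816, 1820, 1825, 1830, 1836, 1842, 1849,
   1857, 1866, 1877, 1890, 1905, 1924, 1949, 1983, 2034, 2120, 2306, 2788, 2800]

set_option maxRecDepth 100000 in
lemma chk_pts : chk pts = true := by decide +kernel

lemma hor_cast (y : ℚ) (m : ℕ) : ∀ acc : ℚ, ((hor y m acc : ℚ) : ℝ) =
    (∑ i ∈ Finset.range m, (-1) ^ i * (y : ℝ) ^ i / (i.factorial : ℝ) ^ 2) +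
      (-1) ^ m * (y : ℝ) ^ m / (m.factorial : ℝ) ^ 2 * (acc : ℝ) := by
  induction m with
  | zero => intro acc; simp [hor]
  | succ m ih =>
    intro acc
    rw [hor, ih, Finset.sum_range_succ, Nat.factorial_succ]
    have h1 : ((m.factorial : ℕ) : ℝ) ≠ 0 := by positivity
    push_cast
    field_simp
    ring

lemma horP_cast (y : ℚ) : ((horP y : ℚ) : ℝ) = jT (2 * 12 + 1) (y : ℝ) := by
  rw [horP, hor_cast, jT, Finset.sum_range_succ _ 24]
  simp

lemma J_le_horP (k c : ℚ) : J ((k : ℝ) * (c : ℝ)) ≤ ((horP (k ^ 2 / 4 * c ^ 2) : ℚ) : ℝ) := by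
  rw [horP_cast]
  refine (J_le_jT 12 _).trans_eq ?_
  congr 1
  push_cast
  ring

/-- The certificate function. -/
noncomputable def cert (s : ℝ) : ℝ :=
  2 / s ^ 3 + 319 / 100 * (s ^ 2 - 1 / s) - 23 / 4 - 25 / 2 * J (15 / 4 * s) - 24 / 5 * J (25 / 4 * s)

lemma low_le {a b : ℚ} (ha : 0 < a) {s : ℝ} (h1 : (a : ℝ) ≤ s) (h2 : s ≤ (b : ℝ)) :
    ((low a b : ℚ) : ℝ) ≤ cert s := by
  have ha' : (0 : ℝ) < (a : ℝ) := by exact_mod_cast ha
  have hs : 0 < s := lt_of_lt_of_le ha' h1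
  have hb' : (0 : ℝ) < (b : ℝ) := lt_of_lt_of_le hs h2
  have e1 : 2 / (b : ℝ) ^ 3 ≤ 2 / s ^ 3 := by
    apply div_le_div_of_nonneg_left (by norm_num) (by positivity)
    exact pow_le_pow_left₀ hs.le h2 3
  have e2 : (a : ℝ) ^ 2 ≤ s ^ 2 := pow_le_pow_left₀ ha'.le h1 2
  have e3 : 1 / s ≤ 1 / (a : ℝ) := one_div_le_one_div_of_le ha' h1
  have e4 : |s - ((a : ℝ) + b) / 2| ≤ ((b : ℝ) - a) / 2 := by
    rw [abs_le]; constructor <;> linarith
  have key : ∀ k : ℚ, 0 ≤ k → J ((k : ℝ) * s) ≤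
      ((horP (k ^ 2 / 4 * ((a + b) / 2) ^ 2) : ℚ) : ℝ) + (k : ℝ) * (((b : ℝ) - a) / 2) * (5 / 7) := by
    intro k hk
    have hk' : (0 : ℝ) ≤ (k : ℝ) := by exact_mod_cast hk
    have h3 := J_lip ((k : ℝ) * s) ((k : ℝ) * (((a + b) / 2 : ℚ) : ℝ))
    have h4 := J_le_horP k ((a + b) / 2)
    rw [← mul_sub, abs_mul, abs_of_nonneg hk'] at h3
    push_cast at h3 h4
    have h5 := mul_le_mul_of_nonneg_left e4 hk'
    linarith
  have k1 := key (15 / 4) (by norm_num)
  have k2 := key (25 / 4) (by norm_num)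
  have f1 : ((15 : ℚ) / 4) ^ 2 / 4 * ((a + b) / 2) ^ 2 = 225 / 256 * (a + b) ^ 2 := by ring
  have f2 : ((25 : ℚ) / 4) ^ 2 / 4 * ((a + b) / 2) ^ 2 = 625 / 256 * (a + b) ^ 2 := by ring
  rw [f1] at k1
  rw [f2] at k2
  unfold low cert
  push_cast at k1 k2 ⊢
  linarith

lemma chk_spec : ∀ (l : List ℕ), chk l = true → ∀ (hl : l ≠ []) (s : ℝ),
    ((l.head hl : ℕ) : ℝ) / 1000 ≤ s → s ≤ ((l.getLast hl : ℕ) : ℝ) / 1000 → l.length ≠ 1 → 0 ≤ cert s
  | [], _, hl, _, _, _, _ => absurd rfl hl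
  | [a], _, _, _, _, _, h => absurd rfl h
  | a :: b :: l, h, _, s, h1, h2, _ => by
    rw [chk] at h
    simp only [Bool.and_eq_true, decide_eq_true_eq] at h
    obtain ⟨⟨ha, _, hlow⟩, hrest⟩ := h
    by_cases hs : s ≤ (b : ℝ) / 1000
    · have ha' : (0 : ℚ) < (a : ℚ) / 1000 := by positivity
      have := low_le ha' (b := (b : ℚ) / 1000) (s := s) (by push_cast; simpa using h1) (by push_cast; exact hs)
      have h0 : (0 : ℝ) ≤ ((low ((a : ℚ) / 1000) ((b : ℚ) / 1000) : ℚ) : ℝ) := by exact_mod_cast hlow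
      linarith
    · push Not at hs
      cases l with
      | nil =>
        simp at h2
        exfalso; linarith
      | cons c l =>
        exact chk_spec (b :: c :: l) hrest (by simp) s (by simpa using hs.le) (by simpa using h2) (by simp)

/-- **The certificate inequality.** -/
lemma cert_nonneg (s : ℝ) (hs : 0 < s) : 0 ≤ cert s := by
  rcases le_total s (2 / 5) with h | h
  · -- small `s`
    have h1 := J_le_one (15 / 4 * s)
    have h2 := J_le_one (25 / 4 * s)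
    have h3 : 2 / s ^ 3 + 319 / 100 * (s ^ 2 - 1 / s) - 23 / 4 - 25 / 2 - 24 / 5 ≥ 0 := by
      have h4 : 2 / s ^ 3 + 319 / 100 * (s ^ 2 - 1 / s) - 23 / 4 - 25 / 2 - 24 / 5
        = (2 + 319 / 100 * s ^ 5 - 319 / 100 * s ^ 2 - 461 / 20 * s ^ 3) / s ^ 3 := by
        field_simp
        ring
      rw [h4]
      apply div_nonneg _ (by positivity)
      have h5 : s ^ 2 ≤ (2 / 5) ^ 2 := pow_le_pow_left₀ hs.le h 2
      have h6 : s ^ 3 ≤ (2 / 5) ^ 3 := pow_le_pow_left₀ hs.le h 3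
      have h7 : 0 ≤ s ^ 5 := by positivity
      norm_num at h5 h6
      linarith
    unfold cert
    linarith
  rcases le_total s (14 / 5) with h' | h'
  · refine chk_spec pts chk_pts (by decide +kernel) s ?_ ?_ (by decide +kernel)
    · have : pts.head (by decide +kernel) = 400 := by decide +kernel
      rw [this]; norm_num; linarith
    · have : pts.getLast (by decide +kernel) = 2800 := by decide +kernel
      rw [this]; norm_num; linarith
  · have h1 := J_le_one (15 / 4 * s)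
    have h2 := J_le_one (25 / 4 * s)
    have h3 : 0 ≤ 2 / s ^ 3 := by positivity
    have h4 : 1 / s ≤ 1 / (14 / 5) := one_div_le_one_div_of_le (by norm_num) h'
    have h5 : (14 / 5) ^ 2 ≤ s ^ 2 := pow_le_pow_left₀ (by norm_num) h' 2
    norm_num at h4 h5
    have h4' : 1 / s ≤ 5 / 14 := by rw [one_div]; linarith
    unfold cert
    linarith

end RelEqN
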