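import Mathlib

set_option autoImplicit false

open Module

namespace RelEqN

variable {N : ℕ}

/-- Newtonian acceleration of the body `j` in the configuration `x : Fin N → ℂ` (the plane is
identified with `ℂ`), masses `m`:
`∑_{k ≠ j} m_k (x_k - x_j) / |x_k - x_j|³`. -/
noncomputable def accel (m : Fin N → ℝ) (x : Fin N → ℂ) (j : Fin N) : ℂ :=
  ∑ k ∈ Finset.univ.erase j, (m k / ‖x k - x j‖ ^ 3) • (x k - x j)

/-- `(ω, q)` is a relative equilibrium of the planar `N`-body problem with masses `m`:
`ω ≠ 0`, the configuration `q` is collision-free, and `t ↦ e^{iωt} q` solves Newton's equations. -/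
def IsRelEq (m : Fin N → ℝ) (ω : ℝ) (q : Fin N → ℂ) : Prop :=
  ω ≠ 0 ∧ Function.Injective q ∧
    ∀ (j : Fin N) (t : ℝ),
      deriv (deriv fun s : ℝ => Complex.exp (Complex.I * ω * s) * q j) t
        = accel m (fun k => Complex.exp (Complex.I * ω * t) * q k) j

/-- Newton's equations as a first-order system in coordinates rotating with angular velocity `ω`:
with `q(t) = e^{iωt} x(t)` and `v = x'` they read `x' = v`,
`v'_j = accel m x j + ω² x_j - 2iω v_j`. The phase space `(Fin N → ℂ) × (Fin N → ℂ)` has real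
dimension `4N`; a relative equilibrium `q` corresponds to the equilibrium point `(q, 0)`. -/
noncomputable def rotField (m : Fin N → ℝ) (ω : ℝ) (p : (Fin N → ℂ) × (Fin N → ℂ)) :
    (Fin N → ℂ) × (Fin N → ℂ) :=
  (p.2, fun j => accel m p.1 j + (ω : ℂ) ^ 2 * p.1 j - 2 * Complex.I * ω * p.2 j)

/-- The linearization (real Fréchet derivative) of the rotating first-order system at `(q, 0)`. -/
noncomputable def linearization (m : Fin N → ℝ) (ω : ℝ) (q : Fin N → ℂ) :
    ((Fin N → ℂ) × (Fin N → ℂ)) →ₗ[ℝ] ((Fin N → ℂ) × (Fin N → ℂ)) :=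
  (fderiv ℝ (rotField m ω) (q, 0) :
    ((Fin N → ℂ) × (Fin N → ℂ)) →L[ℝ] ((Fin N → ℂ) × (Fin N → ℂ)))

/-- Spectral stability: every eigenvalue `z ∈ ℂ` of the linearization (every complex root of its
characteristic polynomial) has zero real part. -/
def SpectrallyStable (m : Fin N → ℝ) (ω : ℝ) (q : Fin N → ℂ) : Prop :=
  ∀ z : ℂ, ((linearization m ω q).charpoly.map (algebraMap ℝ ℂ)).IsRoot z → z.re = 0

/-! ### Sanity checks (not used in the proof) -/

lemma accel_rot (m : Fin N → ℝ) (c : ℂ) (hc : ‖c‖ = 1) (x : Fin N → ℂ) (j : Fin N) :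
    accel m (fun k => c * x k) j = c * accel m x j := by
  unfold accel
  rw [Finset.mul_sum]
  refine Finset.sum_congr rfl fun k _ => ?_
  rw [← mul_sub, norm_mul, hc, one_mul, mul_smul_comm]

/-- If `(x, v)` solves the rotating first-order system, then `t ↦ e^{iωt} x(t)` solves Newton's
equations. -/
lemma newton_of_rotField {m : Fin N → ℝ} {ω : ℝ} {x v : ℝ → Fin N → ℂ}
    (h : ∀ t, HasDerivAt (fun t => (x t, v t)) (rotField m ω (x t, v t)) t) (j : Fin N) (t : ℝ) :
    HasDerivAt (fun t : ℝ => Complex.exp (Complex.I * ω * t) * x t j)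
      (Complex.exp (Complex.I * ω * t) * (v t j + Complex.I * ω * x t j)) t ∧
    HasDerivAt (fun t : ℝ => Complex.exp (Complex.I * ω * t) * (v t j + Complex.I * ω * x t j))
      (accel m (fun k => Complex.exp (Complex.I * ω * t) * x t k) j) t := by
  have hE : HasDerivAt (fun t : ℝ => Complex.exp (Complex.I * ω * t))
      (Complex.exp (Complex.I * ω * t) * (Complex.I * ω)) t := by
    have h2 : HasDerivAt (fun s : ℝ => Complex.I * ω * (s : ℂ)) (Complex.I * ω) t := by
      have := (Complex.ofRealCLM.hasDerivAt (x := t)).const_mul (Complex.I * (ω : ℂ))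
      simpa using this
    exact h2.cexp
  have hx : HasDerivAt (fun t : ℝ => x t j) (v t j) t :=
    (hasDerivAt_pi.1 (h t).fst) j
  have hv : HasDerivAt (fun t : ℝ => v t j)
      (accel m (x t) j + (ω : ℂ) ^ 2 * x t j - 2 * Complex.I * ω * v t j) t :=
    (hasDerivAt_pi.1 (h t).snd) j
  constructor
  · refine (hE.mul hx).congr_deriv ?_
    ring
  · rw [accel_rot]
    · refine (hE.mul (hv.add (hx.const_mul (Complex.I * ω)))).congr_deriv ?_
      simp only [Pi.add_apply]
      linear_combination (Complex.exp (Complex.I * ω * t) * (ω : ℂ) ^ 2 * x t j) * Complex.I_sq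
    · rw [Complex.norm_exp]
      simp

end RelEqN
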