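import Mathlib

set_option autoImplicit false

open Module

namespace RelEqN

section lin

variable {E V : Type*} [AddCommGroup E] [Module ℝ E] [FiniteDimensional ℝ E]
  [AddCommGroup V] [Module ℝ V] [FiniteDimensional ℝ V]

lemma multiset_sum_re_nonpos (s : Multiset ℂ) (h : ∀ z ∈ s, z.re ≤ 0) : (s.sum).re ≤ 0 := by
  induction s using Multiset.induction_on with
  | empty => simp
  | cons a s ih =>
    rw [Multiset.sum_cons, Complex.add_re]
    have h1 := h a (Multiset.mem_cons_self a s)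
    have h2 := ih fun z hz => h z (Multiset.mem_cons_of_mem hz)
    linarith

/-- If every (complex) eigenvalue of `f` has nonpositive real part then the trace of `f` is at most
the trace of any subsystem. -/
lemma trace_le_of_sub (f : E →ₗ[ℝ] E) (f₀ : V →ₗ[ℝ] V) (i : V →ₗ[ℝ] E)
    (hi : Function.Injective i) (h : ∀ v, f (i v) = i (f₀ v))
    (hr : ∀ z : ℂ, (f.charpoly.map (algebraMap ℝ ℂ)).IsRoot z → z.re ≤ 0) :
    LinearMap.trace ℝ E f ≤ LinearMap.trace ℝ V f₀ := by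
  classical
  obtain ⟨C, hC⟩ := Submodule.exists_isCompl (LinearMap.range i)
  let e : (V × C) ≃ₗ[ℝ] E :=
    ((LinearEquiv.ofInjective i hi).prodCongr (LinearEquiv.refl ℝ C)).trans
      (Submodule.prodEquivOfIsCompl _ C hC)
  have he : ∀ v : V, e (v, 0) = i v := by
    intro v
    simp [e]
  have he' : ∀ v : V, e.symm (i v) = (v, 0) := by
    intro v
    rw [← he v, LinearEquiv.symm_apply_apply]
  let b₀ := finBasis ℝ V
  let c := finBasis ℝ C
  let b := (b₀.prod c).map e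
  have hb : ∀ v : V, ∀ k, b.repr (i v) (Sum.inr k) = 0 := by
    intro v k
    simp [b, he']
  have hb' : ∀ v : V, ∀ k, b.repr (i v) (Sum.inl k) = b₀.repr v k := by
    intro v k
    simp [b, he']
  have hbl : ∀ k, b (Sum.inl k) = i (b₀ k) := by
    intro k
    simp [b, he]
  set M := LinearMap.toMatrix b b f with hM
  have h21 : M.toBlocks₂₁ = 0 := by
    ext k l
    simp only [Matrix.toBlocks₂₁, Matrix.of_apply, hM, LinearMap.toMatrix_apply, hbl, h, hb,
      Matrix.zero_apply]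
  have h11 : M.toBlocks₁₁ = LinearMap.toMatrix b₀ b₀ f₀ := by
    ext k l
    simp only [Matrix.toBlocks₁₁, Matrix.of_apply, hM, LinearMap.toMatrix_apply, hbl, h, hb']
  have hMb : M = Matrix.fromBlocks M.toBlocks₁₁ M.toBlocks₁₂ 0 M.toBlocks₂₂ := by
    rw [← h21, Matrix.fromBlocks_toBlocks]
  have hch : f.charpoly = M.toBlocks₁₁.charpoly * M.toBlocks₂₂.charpoly := by
    rw [← LinearMap.charpoly_toMatrix f b, ← hM]
    conv_lhs => rw [hMb]
    rw [Matrix.charpoly_fromBlocks_zero₂₁]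
  have htr : LinearMap.trace ℝ E f = LinearMap.trace ℝ V f₀ + M.toBlocks₂₂.trace := by
    rw [LinearMap.trace_eq_matrix_trace ℝ b f, LinearMap.trace_eq_matrix_trace ℝ b₀ f₀, ← h11, ← hM]
    simp only [Matrix.trace, Fintype.sum_sum_type]
    rfl
  have hD : M.toBlocks₂₂.trace ≤ 0 := by
    have h1 : (((M.toBlocks₂₂.trace : ℝ) : ℂ)).re ≤ 0 := by
      have h2 : ((M.toBlocks₂₂.trace : ℝ) : ℂ) = (M.toBlocks₂₂.map (algebraMap ℝ ℂ)).trace := by
        rw [← Complex.coe_algebraMap, ← RingHom.coe_coe]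
        simp [Matrix.trace]
      rw [h2, Matrix.trace_eq_sum_roots_charpoly]
      apply multiset_sum_re_nonpos
      intro z hz
      apply hr
      rw [hch, Polynomial.map_mul]
      have h3 := Polynomial.isRoot_of_mem_roots hz
      rw [Matrix.charpoly_map] at h3
      exact Polynomial.root_mul_left_of_isRoot _ h3
    simpa using h1
  linarith

/-- If the spectrum of `f` is purely imaginary, then the eigenvalues of `f²` have nonpositive real
parts. -/
lemma sq_roots (f : E →ₗ[ℝ] E)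
    (hf : ∀ z : ℂ, (f.charpoly.map (algebraMap ℝ ℂ)).IsRoot z → z.re = 0) :
    ∀ z : ℂ, ((f ∘ₗ f).charpoly.map (algebraMap ℝ ℂ)).IsRoot z → z.re ≤ 0 := by
  classical
  intro z hz
  let b := finBasis ℝ E
  rw [← LinearMap.charpoly_toMatrix (f ∘ₗ f) b, LinearMap.toMatrix_comp b b b, ← Matrix.charpoly_map,
    ← Matrix.mem_spectrum_iff_isRoot_charpoly, Matrix.map_mul, ← sq] at hz
  set A := (LinearMap.toMatrix b b f).map (algebraMap ℝ ℂ) with hA
  have h1 := spectrum.map_pow_of_pos (𝕜 := ℂ) A (n := 2) (by norm_num)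
  rw [h1] at hz
  obtain ⟨w, hw, rfl⟩ := hz
  rw [Matrix.mem_spectrum_iff_isRoot_charpoly, hA, Matrix.charpoly_map, LinearMap.charpoly_toMatrix] at hw
  have h2 := hf w hw
  simp only [sq, Complex.mul_re]
  rw [h2]
  nlinarith [mul_self_nonneg w.im]

/-- The first-order operator `(ξ, η) ↦ (η, Bξ - 2w Jη)`. -/
noncomputable def blk (B J : E →ₗ[ℝ] E) (w : ℝ) : (E × E) →ₗ[ℝ] (E × E) :=
  (LinearMap.snd ℝ E E).prod (B ∘ₗ LinearMap.fst ℝ E E - (2 * w) • (J ∘ₗ LinearMap.snd ℝ E E))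

omit [FiniteDimensional ℝ E] in
lemma blk_apply (B J : E →ₗ[ℝ] E) (w : ℝ) (p : E × E) :
    blk B J w p = (p.2, B p.1 - (2 * w) • J p.2) := rfl

lemma trace_prod4 (a b c d : E →ₗ[ℝ] E) :
    LinearMap.trace ℝ (E × E) ((a ∘ₗ LinearMap.fst ℝ E E + b ∘ₗ LinearMap.snd ℝ E E).prod
      (c ∘ₗ LinearMap.fst ℝ E E + d ∘ₗ LinearMap.snd ℝ E E))
    = LinearMap.trace ℝ E a + LinearMap.trace ℝ E d := by
  have h1 : (a ∘ₗ LinearMap.fst ℝ E E + b ∘ₗ LinearMap.snd ℝ E E).prod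
      (c ∘ₗ LinearMap.fst ℝ E E + d ∘ₗ LinearMap.snd ℝ E E)
      = LinearMap.inl ℝ E E ∘ₗ (a ∘ₗ LinearMap.fst ℝ E E) + LinearMap.inl ℝ E E ∘ₗ (b ∘ₗ LinearMap.snd ℝ E E)
      + (LinearMap.inr ℝ E E ∘ₗ (c ∘ₗ LinearMap.fst ℝ E E) + LinearMap.inr ℝ E E ∘ₗ (d ∘ₗ LinearMap.snd ℝ E E)) := by
    apply LinearMap.ext
    intro p
    simp
  rw [h1]
  simp only [map_add]
  rw [LinearMap.trace_comp_comm' (a ∘ₗ LinearMap.fst ℝ E E) (LinearMap.inl ℝ E E),
    LinearMap.trace_comp_comm' (b ∘ₗ LinearMap.snd ℝ E E) (LinearMap.inl ℝ E E),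
    LinearMap.trace_comp_comm' (c ∘ₗ LinearMap.fst ℝ E E) (LinearMap.inr ℝ E E),
    LinearMap.trace_comp_comm' (d ∘ₗ LinearMap.snd ℝ E E) (LinearMap.inr ℝ E E)]
  have e1 : (a ∘ₗ LinearMap.fst ℝ E E) ∘ₗ LinearMap.inl ℝ E E = a := by ext; simp
  have e2 : (b ∘ₗ LinearMap.snd ℝ E E) ∘ₗ LinearMap.inl ℝ E E = 0 := by ext; simp
  have e3 : (c ∘ₗ LinearMap.fst ℝ E E) ∘ₗ LinearMap.inr ℝ E E = 0 := by ext; simp
  have e4 : (d ∘ₗ LinearMap.snd ℝ E E) ∘ₗ LinearMap.inr ℝ E E = d := by ext; simp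
  rw [e1, e2, e3, e4]
  simp

lemma trace_blk_sq (B J : E →ₗ[ℝ] E) (w : ℝ) (hJ : ∀ v, J (J v) = -v) :
    LinearMap.trace ℝ (E × E) (blk B J w ∘ₗ blk B J w)
      = 2 * LinearMap.trace ℝ E B - 4 * w ^ 2 * (finrank ℝ E : ℝ) := by
  have h1 : blk B J w ∘ₗ blk B J w =
      (B ∘ₗ LinearMap.fst ℝ E E + (-((2 * w) • J)) ∘ₗ LinearMap.snd ℝ E E).prod
      ((-((2 * w) • (J ∘ₗ B))) ∘ₗ LinearMap.fst ℝ E E
        + (B - (4 * w ^ 2) • LinearMap.id) ∘ₗ LinearMap.snd ℝ E E) := by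
    apply LinearMap.ext
    intro p
    simp only [LinearMap.comp_apply, blk_apply]
    apply Prod.ext
    · change B p.1 - (2 * w) • J p.2 = B p.1 + (-((2 * w) • J p.2))
      rw [sub_eq_add_neg]
    · change B p.2 - (2 * w) • J (B p.1 - (2 * w) • J p.2) =
        -((2 * w) • J (B p.1)) + (B p.2 - (4 * w ^ 2) • p.2)
      rw [map_sub, map_smul, hJ, smul_sub, smul_neg, smul_neg, smul_smul,
        show 2 * w * (2 * w) = 4 * w ^ 2 by ring]
      abel
  rw [h1, trace_prod4]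
  simp only [map_sub, map_smul, LinearMap.trace_id, smul_eq_mul]
  ring

end lin

end RelEqN
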