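import Pool.Agent.Lib.MP_b9e19b_mp.Defs
import Pool.Agent.Lib.MP_b9e19b_mp.Lin

set_option autoImplicit false

open Module

namespace RelEqN

variable {N : ℕ}

/-- the kernel `z / |z|³` -/
noncomputable def gK (z : ℂ) : ℂ := (‖z‖ ^ 3)⁻¹ • z

/-- its derivative -/
noncomputable def gD (z : ℂ) : ℂ →L[ℝ] ℂ :=
  (‖z‖ ^ 3)⁻¹ • ContinuousLinearMap.id ℝ ℂ - ((3 * (‖z‖ ^ 5)⁻¹) • innerSL ℝ z).smulRight z

lemma gD_apply (z h : ℂ) :
    gD z h = (‖z‖ ^ 3)⁻¹ • h - (3 * (‖z‖ ^ 5)⁻¹ * (z.re * h.re + z.im * h.im)) • z := by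
  simp only [gD, sub_apply, smul_apply, ContinuousLinearMap.id_apply,
    ContinuousLinearMap.smulRight_apply, innerSL_apply_apply, smul_eq_mul]
  congr 3
  rw [Complex.inner]
  simp
  ring

lemma hasFDerivAt_gK (z : ℂ) (hz : z ≠ 0) : HasFDerivAt gK (gD z) z := by
  have hz0 : ‖z‖ ≠ 0 := norm_ne_zero_iff.2 hz
  have h1 : HasFDerivAt (fun z : ℂ => ‖z‖ ^ 2) ((2 : ℕ) • innerSL ℝ z) z := by
    have := (hasStrictFDerivAt_norm_sq z).hasFDerivAt
    simpa using this
  have h2 : HasFDerivAt (fun z : ℂ => ‖z‖) (‖z‖⁻¹ • innerSL ℝ z) z := by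
    have h3 := h1.sqrt (by positivity)
    have h4 : (fun z : ℂ => √(‖z‖ ^ 2)) = fun z : ℂ => ‖z‖ := by
      funext w; exact Real.sqrt_sq (norm_nonneg w)
    rw [h4] at h3
    refine h3.congr_fderiv ?_
    rw [Real.sqrt_sq (norm_nonneg z), ← Nat.cast_smul_eq_nsmul ℝ, smul_smul]
    congr 1
    push_cast
    field_simp
  have h5 : HasFDerivAt (fun z : ℂ => (‖z‖ ^ 3)⁻¹) ((-(3 * (‖z‖ ^ 5)⁻¹)) • innerSL ℝ z) z := by
    have h6 := (h2.pow 3)
    have h7 := (hasDerivAt_inv (pow_ne_zero 3 hz0)).comp_hasFDerivAt z h6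
    refine h7.congr_fderiv ?_
    ext h
    simp only [smul_apply, smul_eq_mul, nsmul_eq_mul]
    push_cast
    field_simp
  have h8 := h5.smul (hasFDerivAt_id z)
  refine h8.congr_fderiv ?_
  apply ContinuousLinearMap.ext
  intro h
  simp only [gD, id]
  simp
  ring

/-- The matrix `A = M⁻¹ D²U` at `q`, as a real-linear map. -/
noncomputable def Amap (m : Fin N → ℝ) (q : Fin N → ℂ) : (Fin N → ℂ) →ₗ[ℝ] (Fin N → ℂ) :=
  LinearMap.pi fun j => ∑ k ∈ Finset.univ.erase j,
    m k • (((gD (q k - q j) : ℂ →L[ℝ] ℂ) : ℂ →ₗ[ℝ] ℂ) ∘ₗ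
      ((LinearMap.proj k : (Fin N → ℂ) →ₗ[ℝ] ℂ) - (LinearMap.proj j : (Fin N → ℂ) →ₗ[ℝ] ℂ)))

lemma Amap_apply (m : Fin N → ℝ) (q ξ : Fin N → ℂ) (j : Fin N) :
    Amap m q ξ j = ∑ k ∈ Finset.univ.erase j, m k • gD (q k - q j) (ξ k - ξ j) := by
  simp only [Amap, LinearMap.pi_apply, LinearMap.sum_apply, LinearMap.smul_apply,
    LinearMap.comp_apply, LinearMap.sub_apply, LinearMap.proj_apply]
  rfl

/-- multiplication by `i` -/
noncomputable def Jmap (n : ℕ) : (Fin n → ℂ) →ₗ[ℝ] (Fin n → ℂ) where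
  toFun v := fun j => Complex.I * v j
  map_add' v w := by funext j; simp [mul_add]
  map_smul' c v := by funext j; simp; ring

lemma Jmap_apply (n : ℕ) (v : Fin n → ℂ) (j : Fin n) : Jmap n v j = Complex.I * v j := rfl

lemma Jmap_sq (n : ℕ) (v : Fin n → ℂ) : Jmap n (Jmap n v) = -v := by
  funext j
  rw [Jmap_apply, Jmap_apply, ← mul_assoc, Complex.I_mul_I]
  simp

lemma accel_eq (m : Fin N → ℝ) (x : Fin N → ℂ) (j : Fin N) :
    accel m x j = ∑ k ∈ Finset.univ.erase j, m k • gK (x k - x j) := by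
  unfold accel gK
  refine Finset.sum_congr rfl fun k _ => ?_
  rw [smul_smul, div_eq_mul_inv]

lemma hasFDerivAt_accel (m : Fin N → ℝ) (q : Fin N → ℂ) (hq : Function.Injective q) :
    HasFDerivAt (fun x : Fin N → ℂ => fun j => accel m x j) (LinearMap.toContinuousLinearMap (Amap m q)) q := by
  rw [hasFDerivAt_pi']
  intro j
  have h1 : (fun x : Fin N → ℂ => accel m x j) =
      fun x => ∑ k ∈ Finset.univ.erase j, m k • gK (x k - x j) := by
    funext x; exact accel_eq m x j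
  rw [h1]
  have h2 : ∀ k ∈ Finset.univ.erase j, HasFDerivAt (fun x : Fin N → ℂ => m k • gK (x k - x j))
      (m k • ((gD (q k - q j)).comp ((ContinuousLinearMap.proj k : (Fin N → ℂ) →L[ℝ] ℂ)
        - (ContinuousLinearMap.proj j : (Fin N → ℂ) →L[ℝ] ℂ)))) q := by
    intro k hk
    have hkj : k ≠ j := Finset.ne_of_mem_erase hk
    have hne : q k - q j ≠ 0 := sub_ne_zero.2 fun h => hkj (hq h)
    have h3 : HasFDerivAt (fun x : Fin N → ℂ => x k - x j)
        ((ContinuousLinearMap.proj k : (Fin N → ℂ) →L[ℝ] ℂ) - (ContinuousLinearMap.proj j : (Fin N → ℂ) →L[ℝ] ℂ)) q :=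
      (hasFDerivAt_apply k q).sub (hasFDerivAt_apply j q)
    exact ((hasFDerivAt_gK _ hne).comp q h3).const_smul (m k)
  refine (HasFDerivAt.fun_sum h2).congr_fderiv ?_
  apply ContinuousLinearMap.ext
  intro ξ
  simp only [ContinuousLinearMap.comp_apply, ContinuousLinearMap.proj_apply,
    LinearMap.coe_toContinuousLinearMap', Amap_apply]
  simp

/-- The linearization is `(ξ, η) ↦ (η, (A + ω²) ξ - 2ω J η)`. -/
lemma linearization_eq (m : Fin N → ℝ) (ω : ℝ) (q : Fin N → ℂ) (hq : Function.Injective q) :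
    linearization m ω q = blk (Amap m q + (ω ^ 2) • LinearMap.id) (Jmap N) ω := by
  have h1 : HasFDerivAt (rotField m ω)
      (LinearMap.toContinuousLinearMap (blk (Amap m q + (ω ^ 2) • LinearMap.id) (Jmap N) ω)) (q, 0) := by
    have hA : HasFDerivAt (fun p : (Fin N → ℂ) × (Fin N → ℂ) => fun j => accel m p.1 j)
        ((LinearMap.toContinuousLinearMap (Amap m q)).comp (ContinuousLinearMap.fst ℝ _ _)) (q, 0) :=
      HasFDerivAt.comp (g := fun x : Fin N → ℂ => fun j => accel m x j)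
        (f := (Prod.fst : (Fin N → ℂ) × (Fin N → ℂ) → (Fin N → ℂ))) (q, (0 : Fin N → ℂ))
        (hasFDerivAt_accel m q hq) hasFDerivAt_fst
    have hB : HasFDerivAt (fun p : (Fin N → ℂ) × (Fin N → ℂ) =>
        (fun j => accel m p.1 j) + ((ω ^ 2) • p.1 - (2 * ω) • (Jmap N p.2)))
        ((LinearMap.toContinuousLinearMap (Amap m q)).comp (ContinuousLinearMap.fst ℝ _ _) +
          ((ω ^ 2) • ContinuousLinearMap.fst ℝ _ _ - (2 * ω) • ((LinearMap.toContinuousLinearMap (Jmap N)).comp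
            (ContinuousLinearMap.snd ℝ _ _)))) (q, 0) := by
      apply hA.add
      apply HasFDerivAt.sub
      · have h5 : HasFDerivAt (Prod.fst : (Fin N → ℂ) × (Fin N → ℂ) → (Fin N → ℂ))
            (ContinuousLinearMap.fst ℝ _ _) (q, (0 : Fin N → ℂ)) := hasFDerivAt_fst
        exact h5.fun_const_smul (ω ^ 2)
      · refine HasFDerivAt.fun_const_smul ?_ (2 * ω)
        exact HasFDerivAt.comp (g := fun x : Fin N → ℂ => (LinearMap.toContinuousLinearMap (Jmap N)) x)
          (f := (Prod.snd : (Fin N → ℂ) × (Fin N → ℂ) → (Fin N → ℂ))) (q, (0 : Fin N → ℂ))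
          (LinearMap.toContinuousLinearMap (Jmap N)).hasFDerivAt hasFDerivAt_snd
    have hC := (hasFDerivAt_snd (𝕜 := ℝ) (p := (q, (0 : Fin N → ℂ)))).prodMk hB
    have hfun : rotField m ω = fun p : (Fin N → ℂ) × (Fin N → ℂ) => (p.2,
        (fun j => accel m p.1 j) + ((ω ^ 2) • p.1 - (2 * ω) • (Jmap N p.2))) := by
      funext p
      apply Prod.ext
      · rfl
      · funext j
        simp only [rotField, Pi.add_apply, Pi.sub_apply, Pi.smul_apply, Jmap_apply, Complex.real_smul]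
        push_cast
        ring
    rw [hfun]
    refine hC.congr_fderiv ?_
    apply ContinuousLinearMap.ext
    intro p
    apply Prod.ext
    · rfl
    · funext j
      simp [blk_apply]
      ring
  unfold linearization
  rw [h1.fderiv]
  rfl

/-- The central configuration equation. -/
lemma IsRelEq.eqn {m : Fin N → ℝ} {ω : ℝ} {q : Fin N → ℂ} (h : IsRelEq m ω q) (j : Fin N) :
    accel m q j = -((ω : ℂ) ^ 2 * q j) := by
  have h1 := h.2.2 j 0
  have hd : ∀ c : ℂ, ∀ t : ℝ, HasDerivAt (fun s : ℝ => Complex.exp (Complex.I * ω * s) * c)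
      (Complex.exp (Complex.I * ω * t) * ((Complex.I * ω) * c)) t := by
    intro c t
    have h2 : HasDerivAt (fun s : ℝ => Complex.I * ω * (s : ℂ)) (Complex.I * ω) t := by
      have := (Complex.ofRealCLM.hasDerivAt (x := t)).const_mul (Complex.I * (ω : ℂ))
      simpa using this
    refine (h2.cexp.mul_const c).congr_deriv ?_
    ring
  have h3 : (deriv fun s : ℝ => Complex.exp (Complex.I * ω * s) * q j)
      = fun t : ℝ => Complex.exp (Complex.I * ω * t) * ((Complex.I * ω) * q j) := by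
    funext t
    exact (hd (q j) t).deriv
  rw [h3, (hd ((Complex.I * ω) * q j) 0).deriv] at h1
  simp at h1
  rw [← h1]
  linear_combination (ω : ℂ) ^ 2 * q j * Complex.I_sq

end RelEqN
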