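import Pool.Agent.Lib.MP_b9e19b_mp.Trace
import Pool.Agent.Lib.MP_b9e19b_mp.Cert

set_option autoImplicit false

open Module

namespace RelEqN

variable {N : ℕ}

lemma sum_erase_eq {M : Type*} [AddCommMonoid M] (j : Fin N) (f : Fin N → M) (h : f j = 0) :
    ∑ k ∈ Finset.univ.erase j, f k = ∑ k, f k := by
  rw [← Finset.add_sum_erase Finset.univ f (Finset.mem_univ j), h, zero_add]

lemma accel_full (m : Fin N → ℝ) (q : Fin N → ℂ) (j : Fin N) :
    accel m q j = ∑ k, (m k / ‖q k - q j‖ ^ 3) • (q k - q j) := by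
  unfold accel
  rw [sum_erase_eq]
  simp

/-- The center of mass is at the origin. -/
lemma com_zero {m : Fin N → ℝ} {ω : ℝ} {q : Fin N → ℂ} (h : IsRelEq m ω q) :
    ∑ j, (m j : ℂ) * q j = 0 := by
  have h1 : ∑ j, (m j : ℂ) * accel m q j = 0 := by
    have h2 : ∑ j, (m j : ℂ) * accel m q j =
        ∑ j, ∑ k, ((m j * m k / ‖q k - q j‖ ^ 3 : ℝ) : ℂ) * (q k - q j) := by
      refine Finset.sum_congr rfl fun j _ => ?_
      rw [accel_full, Finset.mul_sum]
      refine Finset.sum_congr rfl fun k _ => ?_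
      rw [Complex.real_smul]
      push_cast
      ring
    have h3 : ∑ j, ∑ k, ((m j * m k / ‖q k - q j‖ ^ 3 : ℝ) : ℂ) * (q k - q j)
        = -∑ j, ∑ k, ((m j * m k / ‖q k - q j‖ ^ 3 : ℝ) : ℂ) * (q k - q j) := by
      conv_lhs => rw [Finset.sum_comm]
      rw [← Finset.sum_neg_distrib]
      refine Finset.sum_congr rfl fun j _ => ?_
      rw [← Finset.sum_neg_distrib]
      refine Finset.sum_congr rfl fun k _ => ?_
      rw [norm_sub_rev (q j) (q k), mul_comm (m k) (m j)]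
      ring
    rw [h2]
    have h4 : ∀ z : ℂ, z = -z → z = 0 := by
      intro z hz
      have : 2 * z = 0 := by linear_combination hz
      simpa using this
    exact h4 _ h3
  have h5 : ∑ j, (m j : ℂ) * accel m q j = -((ω : ℂ) ^ 2) * ∑ j, (m j : ℂ) * q j := by
    rw [Finset.mul_sum]
    refine Finset.sum_congr rfl fun j _ => ?_
    rw [h.eqn]
    ring
  rw [h5] at h1
  have hω : (ω : ℂ) ≠ 0 := by exact_mod_cast h.1
  rcases mul_eq_zero.1 h1 with h6 | h6
  · exfalso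
    rw [neg_eq_zero] at h6
    exact hω (pow_eq_zero_iff (n := 2) (by norm_num) |>.1 h6)
  · exact h6

/-- Virial identity. -/
lemma virial {m : Fin N → ℝ} {ω : ℝ} {q : Fin N → ℂ} (h : IsRelEq m ω q) :
    2 * ω ^ 2 * ∑ j, m j * ‖q j‖ ^ 2 = ∑ j, ∑ k, m j * m k / ‖q k - q j‖ := by
  have h1 : ∀ j, m j * (q j * star (accel m q j)).re = -(ω ^ 2 * (m j * ‖q j‖ ^ 2)) := by
    intro j
    rw [h.eqn]
    have : ‖q j‖ ^ 2 = (q j).re * (q j).re + (q j).im * (q j).im := by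
      rw [← Complex.normSq_eq_norm_sq, Complex.normSq_apply]
    rw [this]
    have h2 : ((ω : ℂ) ^ 2) = ((ω ^ 2 : ℝ) : ℂ) := by push_cast; ring
    rw [h2]
    generalize ω ^ 2 = w
    simp
    ring
  have h2 : ∀ j, m j * (q j * star (accel m q j)).re =
      ∑ k, m j * m k / ‖q k - q j‖ ^ 3 * ((q j).re * ((q k).re - (q j).re) + (q j).im * ((q k).im - (q j).im)) := by
    intro j
    rw [accel_full]
    simp only [star_sum, Finset.mul_sum, Complex.re_sum]
    refine Finset.sum_congr rfl fun k _ => ?_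
    rw [mul_div_assoc]
    generalize m k / ‖q k - q j‖ ^ 3 = w
    simp
    ring
  have h3 : ∑ j, ∑ k, m j * m k / ‖q k - q j‖ ^ 3 *
      ((q j).re * ((q k).re - (q j).re) + (q j).im * ((q k).im - (q j).im))
      = ∑ j, ∑ k, m j * m k / ‖q k - q j‖ ^ 3 *
      ((q k).re * ((q j).re - (q k).re) + (q k).im * ((q j).im - (q k).im)) := by
    rw [Finset.sum_comm]
    refine Finset.sum_congr rfl fun j _ => ?_
    refine Finset.sum_congr rfl fun k _ => ?_
    rw [norm_sub_rev (q j) (q k), mul_comm (m k) (m j)]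
  have h4 : ∑ j, ∑ k, m j * m k / ‖q k - q j‖ ^ 3 *
      ((q j).re * ((q k).re - (q j).re) + (q j).im * ((q k).im - (q j).im))
      + ∑ j, ∑ k, m j * m k / ‖q k - q j‖ ^ 3 *
      ((q k).re * ((q j).re - (q k).re) + (q k).im * ((q j).im - (q k).im))
      = -∑ j, ∑ k, m j * m k / ‖q k - q j‖ := by
    rw [← Finset.sum_add_distrib, ← Finset.sum_neg_distrib]
    refine Finset.sum_congr rfl fun j _ => ?_
    rw [← Finset.sum_add_distrib, ← Finset.sum_neg_distrib]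
    refine Finset.sum_congr rfl fun k _ => ?_
    rcases eq_or_ne (q k - q j) 0 with h0 | h0
    · rw [h0]; simp
    · have hn : ‖q k - q j‖ ≠ 0 := norm_ne_zero_iff.2 h0
      have e1 : (q j).re * ((q k).re - (q j).re) + (q j).im * ((q k).im - (q j).im)
          + ((q k).re * ((q j).re - (q k).re) + (q k).im * ((q j).im - (q k).im)) = -(‖q k - q j‖ ^ 2) := by
        rw [← Complex.normSq_eq_norm_sq, Complex.normSq_apply]
        simp only [Complex.sub_re, Complex.sub_im]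
        ring
      rw [← mul_add, e1]
      field_simp
  have h5 : ∑ j, m j * (q j * star (accel m q j)).re = -(ω ^ 2 * ∑ j, m j * ‖q j‖ ^ 2) := by
    rw [Finset.mul_sum, ← Finset.sum_neg_distrib]
    exact Finset.sum_congr rfl fun j _ => h1 j
  have h6 : ∑ j, m j * (q j * star (accel m q j)).re =
      ∑ j, ∑ k, m j * m k / ‖q k - q j‖ ^ 3 *
      ((q j).re * ((q k).re - (q j).re) + (q j).im * ((q k).im - (q j).im)) :=
    Finset.sum_congr rfl fun j _ => h2 j
  rw [← h3, ← h6, h5] at h4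
  linarith

/-- Leibniz identity, with the center of mass at the origin. -/
lemma leibniz {m : Fin N → ℝ} {q : Fin N → ℂ} (h : ∑ j, (m j : ℂ) * q j = 0) :
    ∑ j, ∑ k, m j * m k * ‖q k - q j‖ ^ 2 = 2 * (∑ j, m j) * ∑ j, m j * ‖q j‖ ^ 2 := by
  have hre : ∑ j, m j * (q j).re = 0 := by
    have := congrArg Complex.re h
    simpa using this
  have him : ∑ j, m j * (q j).im = 0 := by
    have := congrArg Complex.im h
    simpa using this
  have h1 : ∀ j k, m j * m k * ‖q k - q j‖ ^ 2 = m j * (m k * ‖q k‖ ^ 2) + (m j * ‖q j‖ ^ 2) * m k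
      - 2 * ((m j * (q j).re) * (m k * (q k).re)) - 2 * ((m j * (q j).im) * (m k * (q k).im)) := by
    intro j k
    simp only [← Complex.normSq_eq_norm_sq, Complex.normSq_apply, Complex.sub_re, Complex.sub_im]
    ring
  simp_rw [h1]
  simp only [Finset.sum_sub_distrib, Finset.sum_add_distrib, ← Finset.mul_sum, ← Finset.sum_mul]
  rw [hre, him]
  ring

/-- **Main inequality**: a spectrally stable relative equilibrium of `N ≥ 2` bodies satisfies
`115 M ≤ (80 N + 341) μ` for every upper bound `μ` of the masses. -/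
lemma main_ineq (hN : 2 ≤ N) {m : Fin N → ℝ} (hm : ∀ j, 0 < m j) {ω : ℝ} {q : Fin N → ℂ}
    (h : IsRelEq m ω q) (hs : SpectrallyStable m ω q) (μ : ℝ) (hμ : ∀ j, m j ≤ μ) :
    115 * ∑ j, m j ≤ (80 * N + 341) * μ := by
  have hq := h.2.1
  have hω := h.1
  set M := ∑ j, m j with hM
  have hj0 : Fin N := ⟨0, by omega⟩
  have hMpos : 0 < M := Finset.sum_pos (fun j _ => hm j) ⟨hj0, Finset.mem_univ _⟩
  have hω2 : 0 < ω ^ 2 := by positivity
  have hμ0 : 0 < μ := lt_of_lt_of_le (hm hj0) (hμ hj0)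
  -- the length scale
  obtain ⟨ρ, hρ, hρ3⟩ : ∃ ρ : ℝ, 0 < ρ ∧ ρ ^ 3 * ω ^ 2 = M := by
    refine ⟨(M / ω ^ 2) ^ ((1 : ℝ) / 3), by positivity, ?_⟩
    rw [← Real.rpow_natCast, ← Real.rpow_mul (by positivity)]
    norm_num
    field_simp
  -- scale-free identity
  have hvir : ∑ j, ∑ k, m j * m k * (‖q k - q j‖ / ρ) ^ 2 = ∑ j, ∑ k, m j * m k / (‖q k - q j‖ / ρ) := by
    have h1 := virial h
    have h2 := leibniz (com_zero h)
    have h3 : ∑ j, ∑ k, m j * m k * (‖q k - q j‖ / ρ) ^ 2 = (∑ j, ∑ k, m j * m k * ‖q k - q j‖ ^ 2) / ρ ^ 2 := by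
      rw [Finset.sum_div]
      refine Finset.sum_congr rfl fun j _ => ?_
      rw [Finset.sum_div]
      refine Finset.sum_congr rfl fun k _ => ?_
      rw [div_pow]; ring
    have h4 : ∑ j, ∑ k, m j * m k / (‖q k - q j‖ / ρ) = (∑ j, ∑ k, m j * m k / ‖q k - q j‖) * ρ := by
      rw [Finset.sum_mul]
      refine Finset.sum_congr rfl fun j _ => ?_
      rw [Finset.sum_mul]
      refine Finset.sum_congr rfl fun k _ => ?_
      rw [div_div_eq_mul_div]; ring
    rw [h3, h4, h2, ← h1, ← hM, ← hρ3]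
    field_simp
  -- sum the certificate over pairs
  have hpair : ∀ j k, m j * m k * (23 / 4 + 25 / 2 * J (15 / 4 * (‖q k - q j‖ / ρ)) + 24 / 5 * J (25 / 4 * (‖q k - q j‖ / ρ)))
      ≤ 2 * (m j * m k / (‖q k - q j‖ / ρ) ^ 3) + 319 / 100 * (m j * m k * (‖q k - q j‖ / ρ) ^ 2 - m j * m k / (‖q k - q j‖ / ρ))
        + (if j = k then (461 / 20) * (m j * m k) else 0) := by
    intro j k
    by_cases hjk : j = k
    · subst hjk
      simp only [sub_self, norm_zero, zero_div, mul_zero, J_zero, if_true, ne_eq, OfNat.ofNat_ne_zero,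
        not_false_eq_true, zero_pow, div_zero]
      linarith
    · rw [if_neg hjk, add_zero]
      have hne : q k - q j ≠ 0 := sub_ne_zero.2 fun h => hjk (hq h).symm
      have hr : 0 < ‖q k - q j‖ / ρ := div_pos (norm_pos_iff.2 hne) hρ
      have hc := cert_nonneg _ hr
      have hmm : 0 < m j * m k := mul_pos (hm j) (hm k)
      have h5 := mul_nonneg hmm.le hc
      unfold cert at h5
      have e1 : m j * m k * (2 / (‖q k - q j‖ / ρ) ^ 3 + 319 / 100 * ((‖q k - q j‖ / ρ) ^ 2 - 1 / (‖q k - q j‖ / ρ)) - 23 / 4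
        - 25 / 2 * J (15 / 4 * (‖q k - q j‖ / ρ)) - 24 / 5 * J (25 / 4 * (‖q k - q j‖ / ρ)))
        = (2 * (m j * m k / (‖q k - q j‖ / ρ) ^ 3) + 319 / 100 * (m j * m k * (‖q k - q j‖ / ρ) ^ 2 - m j * m k / (‖q k - q j‖ / ρ)))
        - m j * m k * (23 / 4 + 25 / 2 * J (15 / 4 * (‖q k - q j‖ / ρ)) + 24 / 5 * J (25 / 4 * (‖q k - q j‖ / ρ))) := by
        ring
      rw [e1] at h5
      linarith
  have hsum := Finset.sum_le_sum fun j (_ : j ∈ Finset.univ) => Finset.sum_le_sum fun k (_ : k ∈ Finset.univ) => hpair j k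
  -- left side
  have hJ1 := J_posDef Finset.univ m q (15 / 4 / ρ)
  have hJ2 := J_posDef Finset.univ m q (25 / 4 / ρ)
  have hMM : ∑ j, ∑ k, m j * m k = M ^ 2 := by
    rw [← Finset.sum_mul_sum, sq]
  have hL : 23 / 4 * M ^ 2 ≤ ∑ j, ∑ k, m j * m k * (23 / 4 + 25 / 2 * J (15 / 4 * (‖q k - q j‖ / ρ)) + 24 / 5 * J (25 / 4 * (‖q k - q j‖ / ρ))) := by
    have e1 : ∑ j, ∑ k, m j * m k * (23 / 4 + 25 / 2 * J (15 / 4 * (‖q k - q j‖ / ρ)) + 24 / 5 * J (25 / 4 * (‖q k - q j‖ / ρ)))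
        = 23 / 4 * (∑ j, ∑ k, m j * m k) + 25 / 2 * (∑ j, ∑ k, m j * m k * J (15 / 4 / ρ * ‖q j - q k‖))
          + 24 / 5 * (∑ j, ∑ k, m j * m k * J (25 / 4 / ρ * ‖q j - q k‖)) := by
      simp only [Finset.mul_sum, ← Finset.sum_add_distrib]
      refine Finset.sum_congr rfl fun j _ => ?_
      refine Finset.sum_congr rfl fun k _ => ?_
      rw [norm_sub_rev (q j) (q k)]
      rw [show 15 / 4 / ρ * ‖q k - q j‖ = 15 / 4 * (‖q k - q j‖ / ρ) by ring,
        show 25 / 4 / ρ * ‖q k - q j‖ = 25 / 4 * (‖q k - q j‖ / ρ) by ring]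
      ring
    rw [e1, hMM]
    linarith
  -- right side
  have hdiag : ∑ j, ∑ k, (if j = k then (461 / 20) * (m j * m k) else 0) ≤ 461 / 20 * (μ * M) := by
    have e1 : ∀ j, ∑ k, (if j = k then (461 / 20) * (m j * m k) else 0) = 461 / 20 * (m j * m j) := by
      intro j; simp
    simp only [e1]
    rw [← Finset.mul_sum]
    apply mul_le_mul_of_nonneg_left _ (by norm_num)
    rw [hM, Finset.mul_sum]
    exact Finset.sum_le_sum fun j _ => mul_le_mul_of_nonneg_right (hμ j) (hm j).le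
  have hR1 : ∑ j, ∑ k, (2 * (m j * m k / (‖q k - q j‖ / ρ) ^ 3) + 319 / 100 * (m j * m k * (‖q k - q j‖ / ρ) ^ 2 - m j * m k / (‖q k - q j‖ / ρ))
        + (if j = k then (461 / 20) * (m j * m k) else 0))
      = 2 * ∑ j, ∑ k, m j * m k / (‖q k - q j‖ / ρ) ^ 3 + ∑ j, ∑ k, (if j = k then (461 / 20) * (m j * m k) else 0) := by
    have e1 : ∑ j, ∑ k, (2 * (m j * m k / (‖q k - q j‖ / ρ) ^ 3) + 319 / 100 * (m j * m k * (‖q k - q j‖ / ρ) ^ 2 - m j * m k / (‖q k - q j‖ / ρ))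
        + (if j = k then (461 / 20) * (m j * m k) else 0))
        = 2 * (∑ j, ∑ k, m j * m k / (‖q k - q j‖ / ρ) ^ 3)
        + 319 / 100 * ((∑ j, ∑ k, m j * m k * (‖q k - q j‖ / ρ) ^ 2) - ∑ j, ∑ k, m j * m k / (‖q k - q j‖ / ρ))
        + ∑ j, ∑ k, (if j = k then (461 / 20) * (m j * m k) else 0) := by
      simp only [Finset.mul_sum, ← Finset.sum_add_distrib, ← Finset.sum_sub_distrib]
    rw [e1, hvir]
    ring
  have htr := trace_ineq hN h hs
  have htr' : ∑ j, ∑ k, m k / ‖q k - q j‖ ^ 3 ≤ (2 * N - 3) * ω ^ 2 := by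
    refine le_of_eq_of_le ?_ htr
    refine Finset.sum_congr rfl fun j _ => ?_
    rw [sum_erase_eq]
    simp
  have hsym : ∑ j, ∑ k, m j / ‖q k - q j‖ ^ 3 = ∑ j, ∑ k, m k / ‖q k - q j‖ ^ 3 := by
    rw [Finset.sum_comm]
    refine Finset.sum_congr rfl fun j _ => ?_
    refine Finset.sum_congr rfl fun k _ => ?_
    rw [norm_sub_rev (q j) (q k)]
  have hcube : 2 * ∑ j, ∑ k, m j * m k / (‖q k - q j‖ / ρ) ^ 3 ≤ 2 * μ * (2 * N - 3) * M := by
    have e1 : 2 * ∑ j, ∑ k, m j * m k / (‖q k - q j‖ / ρ) ^ 3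
        ≤ μ * ρ ^ 3 * (∑ j, ∑ k, m j / ‖q k - q j‖ ^ 3 + ∑ j, ∑ k, m k / ‖q k - q j‖ ^ 3) := by
      simp only [Finset.mul_sum, ← Finset.sum_add_distrib]
      refine Finset.sum_le_sum fun j _ => Finset.sum_le_sum fun k _ => ?_
      rw [div_pow, div_div_eq_mul_div, ← mul_div_assoc, ← add_div, ← mul_div_assoc]
      apply div_le_div_of_nonneg_right _ (by positivity)
      have f1 := mul_le_mul_of_nonneg_right (hμ j) (hm k).le
      have f2 := mul_le_mul_of_nonneg_left (hμ k) (hm j).le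
      have f3 : 0 < ρ ^ 3 := by positivity
      nlinarith
    rw [hsym] at e1
    have e2 : μ * ρ ^ 3 * (∑ j, ∑ k, m k / ‖q k - q j‖ ^ 3 + ∑ j, ∑ k, m k / ‖q k - q j‖ ^ 3)
        ≤ μ * ρ ^ 3 * (2 * ((2 * N - 3) * ω ^ 2)) := by
      apply mul_le_mul_of_nonneg_left _ (by positivity)
      linarith
    have e3 : μ * ρ ^ 3 * (2 * ((2 * N - 3) * ω ^ 2)) = 2 * μ * (2 * N - 3) * M := by
      rw [← hρ3]; ring
    linarith
  rw [hR1] at hsum
  have hfin : 23 / 4 * M ^ 2 ≤ 2 * μ * (2 * N - 3) * M + 461 / 20 * (μ * M) := by linarith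
  have hfin2 : M * (115 * M) ≤ M * ((80 * N + 341) * μ) := by nlinarith
  exact le_of_mul_le_mul_left hfin2 hMpos

end RelEqN
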