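import Pool.Agent.Lib.MP_b9e19b_mp.Deriv

set_option autoImplicit false

open Module

namespace RelEqN

variable {N : ℕ}

lemma trace_pi (n : ℕ) (f : Fin n → ((Fin n → ℂ) →ₗ[ℝ] ℂ)) :
    LinearMap.trace ℝ (Fin n → ℂ) (LinearMap.pi f)
      = ∑ j, LinearMap.trace ℝ ℂ (f j ∘ₗ LinearMap.single ℝ (fun _ => ℂ) j) := by
  have h1 : LinearMap.pi f = ∑ j, LinearMap.single ℝ (fun _ : Fin n => ℂ) j ∘ₗ f j := by
    apply LinearMap.ext
    intro v
    funext j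
    simp [LinearMap.sum_apply, Finset.sum_apply, Pi.single_apply]
  rw [h1, map_sum]
  refine Finset.sum_congr rfl fun j _ => ?_
  rw [LinearMap.trace_comp_comm']

lemma trace_gD (z : ℂ) : LinearMap.trace ℝ ℂ ((gD z : ℂ →L[ℝ] ℂ) : ℂ →ₗ[ℝ] ℂ) = -(‖z‖ ^ 3)⁻¹ := by
  rcases eq_or_ne z 0 with rfl | hz
  · have : ((gD 0 : ℂ →L[ℝ] ℂ) : ℂ →ₗ[ℝ] ℂ) = 0 := by
      apply LinearMap.ext
      intro h
      change gD 0 h = 0
      rw [gD_apply]; simp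
    rw [this]; simp
  have hz0 : ‖z‖ ≠ 0 := norm_ne_zero_iff.2 hz
  have h1 : ((gD z : ℂ →L[ℝ] ℂ) : ℂ →ₗ[ℝ] ℂ) = (‖z‖ ^ 3)⁻¹ • LinearMap.id
      - (3 * (‖z‖ ^ 5)⁻¹) • ((innerSL ℝ z : ℂ →L[ℝ] ℝ) : ℂ →ₗ[ℝ] ℝ).smulRight z := by
    apply LinearMap.ext
    intro h
    simp [gD]
    ring
  rw [h1, map_sub, map_smul, map_smul, LinearMap.trace_id, LinearMap.trace_smulRight]
  simp only [Complex.finrank_real_complex, smul_eq_mul]
  have h2 : ((innerSL ℝ z : ℂ →L[ℝ] ℝ) : ℂ →ₗ[ℝ] ℝ) z = ‖z‖ ^ 2 := by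
    change (innerSL ℝ z) z = ‖z‖ ^ 2
    rw [innerSL_apply_apply, real_inner_self_eq_norm_sq]
  rw [h2]
  field_simp
  norm_num

lemma trace_Amap (m : Fin N → ℝ) (q : Fin N → ℂ) :
    LinearMap.trace ℝ _ (Amap m q) = ∑ j, ∑ k ∈ Finset.univ.erase j, m k / ‖q k - q j‖ ^ 3 := by
  unfold Amap
  rw [trace_pi]
  refine Finset.sum_congr rfl fun j _ => ?_
  have h0 : ∀ (s : Finset (Fin N)) (f : Fin N → ((Fin N → ℂ) →ₗ[ℝ] ℂ)) (g : ℂ →ₗ[ℝ] (Fin N → ℂ)),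
      (∑ k ∈ s, f k) ∘ₗ g = ∑ k ∈ s, (f k ∘ₗ g) := by
    intro s f g
    apply LinearMap.ext
    intro h
    simp [LinearMap.sum_apply]
  rw [h0, map_sum]
  refine Finset.sum_congr rfl fun k hk => ?_
  have hkj : k ≠ j := Finset.ne_of_mem_erase hk
  have h1 : (m k • (((gD (q k - q j) : ℂ →L[ℝ] ℂ) : ℂ →ₗ[ℝ] ℂ) ∘ₗ
      ((LinearMap.proj k : (Fin N → ℂ) →ₗ[ℝ] ℂ) - (LinearMap.proj j : (Fin N → ℂ) →ₗ[ℝ] ℂ)))) ∘ₗ
      LinearMap.single ℝ (fun _ => ℂ) j = (-(m k)) • ((gD (q k - q j) : ℂ →L[ℝ] ℂ) : ℂ →ₗ[ℝ] ℂ) := by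
    apply LinearMap.ext
    intro h
    simp only [LinearMap.comp_apply, LinearMap.smul_apply, LinearMap.sub_apply, LinearMap.proj_apply,
      LinearMap.single_apply, Pi.single_eq_same]
    rw [Pi.single_eq_of_ne hkj, zero_sub, map_neg, smul_neg, neg_smul]
  rw [h1, map_smul, trace_gD, smul_eq_mul]
  ring

/-- The subsystem operator. -/
noncomputable def B0 (ω : ℝ) : (Fin 2 → ℂ) →ₗ[ℝ] (Fin 2 → ℂ) :=
  LinearMap.pi ![(ω ^ 2) • (LinearMap.proj 0 : (Fin 2 → ℂ) →ₗ[ℝ] ℂ),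
    (3 * ω ^ 2) • ((Complex.reLm.smulRight (1 : ℂ)) ∘ₗ (LinearMap.proj 1 : (Fin 2 → ℂ) →ₗ[ℝ] ℂ))]

lemma B0_zero (ω : ℝ) (u : Fin 2 → ℂ) : B0 ω u 0 = (ω ^ 2) • u 0 := by
  simp [B0]

lemma B0_one (ω : ℝ) (u : Fin 2 → ℂ) : B0 ω u 1 = (3 * ω ^ 2 * (u 1).re : ℝ) := by
  simp [B0]

lemma trace_B0 (ω : ℝ) : LinearMap.trace ℝ _ (B0 ω) = 5 * ω ^ 2 := by
  unfold B0
  rw [trace_pi, Fin.sum_univ_two]
  simp only [Matrix.cons_val_zero, Matrix.cons_val_one]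
  have h1 : ((ω ^ 2) • (LinearMap.proj 0 : (Fin 2 → ℂ) →ₗ[ℝ] ℂ)) ∘ₗ LinearMap.single ℝ (fun _ => ℂ) 0
      = (ω ^ 2) • (LinearMap.id : ℂ →ₗ[ℝ] ℂ) := by
    apply LinearMap.ext
    intro h
    simp
  have h2 : ((3 * ω ^ 2) • ((Complex.reLm.smulRight (1 : ℂ)) ∘ₗ (LinearMap.proj 1 : (Fin 2 → ℂ) →ₗ[ℝ] ℂ)))
      ∘ₗ LinearMap.single ℝ (fun _ => ℂ) 1 = (3 * ω ^ 2) • (Complex.reLm.smulRight (1 : ℂ)) := by
    apply LinearMap.ext
    intro h
    simp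
  rw [h1, h2, map_smul, map_smul, LinearMap.trace_id, LinearMap.trace_smulRight]
  simp
  ring

/-- The embedding of the trivial modes: `u ↦ u₀ + u₁ q`. -/
noncomputable def emb (q : Fin N → ℂ) : (Fin 2 → ℂ) →ₗ[ℝ] (Fin N → ℂ) where
  toFun u := fun j => u 0 + u 1 * q j
  map_add' u v := by funext j; simp; ring
  map_smul' c u := by funext j; simp; ring

lemma emb_apply (q : Fin N → ℂ) (u : Fin 2 → ℂ) (j : Fin N) : emb q u j = u 0 + u 1 * q j := rfl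

lemma emb_injective (hN : 2 ≤ N) (q : Fin N → ℂ) (hq : Function.Injective q) :
    Function.Injective (emb q) := by
  rw [injective_iff_map_eq_zero]
  intro u hu
  have h0 := congrFun hu ⟨0, by omega⟩
  have h1 := congrFun hu ⟨1, by omega⟩
  rw [emb_apply] at h0 h1
  simp only [Pi.zero_apply] at h0 h1
  have hne : q ⟨0, by omega⟩ - q ⟨1, by omega⟩ ≠ 0 := by
    rw [sub_ne_zero]
    intro h
    have := hq h
    simp at this
  have h2 : u 1 * (q ⟨0, by omega⟩ - q ⟨1, by omega⟩) = 0 := by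
    linear_combination h0 - h1
  have h3 : u 1 = 0 := by
    rcases mul_eq_zero.1 h2 with h | h
    · exact h
    · exact absurd h hne
  rw [h3] at h0
  simp at h0
  funext i
  fin_cases i
  · exact h0
  · exact h3

lemma gD_mul (z c : ℂ) : gD z (c * z) = (c - 3 * (c.re : ℂ)) * gK z := by
  rcases eq_or_ne z 0 with rfl | hz
  · simp [gK]
  have hz0 : ‖z‖ ≠ 0 := norm_ne_zero_iff.2 hz
  rw [gD_apply]
  have h1 : z.re * (c * z).re + z.im * (c * z).im = c.re * ‖z‖ ^ 2 := by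
    rw [← Complex.normSq_eq_norm_sq, Complex.normSq_apply, Complex.mul_re, Complex.mul_im]
    ring
  rw [h1]
  unfold gK
  simp only [Complex.real_smul]
  have h2 : ((‖z‖ : ℝ) : ℂ) ≠ 0 := by exact_mod_cast hz0
  push_cast
  field_simp

lemma Amap_emb {m : Fin N → ℝ} {ω : ℝ} {q : Fin N → ℂ} (h : IsRelEq m ω q) (u : Fin 2 → ℂ) :
    (Amap m q + (ω ^ 2) • LinearMap.id : (Fin N → ℂ) →ₗ[ℝ] (Fin N → ℂ)) (emb q u) = emb q (B0 ω u) := by
  funext j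
  rw [LinearMap.add_apply, Pi.add_apply, Amap_apply, emb_apply q (B0 ω u) j, B0_zero, B0_one]
  have h1 : ∀ k ∈ Finset.univ.erase j, m k • gD (q k - q j) (emb q u k - emb q u j)
      = (u 1 - 3 * ((u 1).re : ℂ)) * (m k • gK (q k - q j)) := by
    intro k _
    rw [emb_apply, emb_apply]
    have : u 0 + u 1 * q k - (u 0 + u 1 * q j) = u 1 * (q k - q j) := by ring
    rw [this, gD_mul]
    simp only [Complex.real_smul]
    ring
  rw [Finset.sum_congr rfl h1, ← Finset.mul_sum, ← accel_eq, h.eqn]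
  simp only [LinearMap.smul_apply, LinearMap.id_apply, Pi.smul_apply, Complex.real_smul, emb_apply]
  push_cast
  ring

/-- **Trace inequality**: a spectrally stable relative equilibrium satisfies
`∑_j ∑_{k ≠ j} m_k / r_{jk}³ ≤ (2N - 3) ω²`. -/
lemma trace_ineq (hN : 2 ≤ N) {m : Fin N → ℝ} {ω : ℝ} {q : Fin N → ℂ} (h : IsRelEq m ω q)
    (hs : SpectrallyStable m ω q) :
    ∑ j, ∑ k ∈ Finset.univ.erase j, m k / ‖q k - q j‖ ^ 3 ≤ (2 * N - 3) * ω ^ 2 := by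
  have hq := h.2.1
  have hL := linearization_eq m ω q hq
  unfold SpectrallyStable at hs
  rw [hL] at hs
  have h2 := sq_roots _ hs
  let i : ((Fin 2 → ℂ) × (Fin 2 → ℂ)) →ₗ[ℝ] ((Fin N → ℂ) × (Fin N → ℂ)) := (emb q).prodMap (emb q)
  have hi : Function.Injective i := by
    have := emb_injective hN q hq
    intro a b hab
    have e1 := congrArg Prod.fst hab
    have e2 := congrArg Prod.snd hab
    exact Prod.ext (this e1) (this e2)
  have hcomm : ∀ v, blk (Amap m q + (ω ^ 2) • LinearMap.id) (Jmap N) ω (i v) = i (blk (B0 ω) (Jmap 2) ω v) := by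
    intro v
    rw [blk_apply, blk_apply]
    apply Prod.ext
    · rfl
    · change (Amap m q + (ω ^ 2) • LinearMap.id : (Fin N → ℂ) →ₗ[ℝ] (Fin N → ℂ)) (emb q v.1) - (2 * ω) • (Jmap N) (emb q v.2)
        = emb q (B0 ω v.1 - (2 * ω) • Jmap 2 v.2)
      rw [map_sub, map_smul, Amap_emb h]
      congr 2
      funext j
      simp only [Jmap_apply, emb_apply]
      ring
  have h3 := trace_le_of_sub (blk (Amap m q + (ω ^ 2) • LinearMap.id) (Jmap N) ω ∘ₗ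
    blk (Amap m q + (ω ^ 2) • LinearMap.id) (Jmap N) ω) (blk (B0 ω) (Jmap 2) ω ∘ₗ blk (B0 ω) (Jmap 2) ω) i hi
    (by intro v; rw [LinearMap.comp_apply, LinearMap.comp_apply, hcomm, hcomm]) h2
  rw [trace_blk_sq _ _ _ (Jmap_sq N), trace_blk_sq _ _ _ (Jmap_sq 2), trace_B0, map_add, trace_Amap, map_smul,
    LinearMap.trace_id] at h3
  simp only [Module.finrank_pi_fintype, Complex.finrank_real_complex, Finset.sum_const, Finset.card_univ,
    Fintype.card_fin, smul_eq_mul] at h3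
  push_cast at h3
  linarith

end RelEqN
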